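import Pool.Agent.K3h63.IQ.Stm

/-!
# The sign conjecture for `M` from that for `(M ⊗ N)^G`

Brick CPL for `Pool.Agent.K3h63.IQ.Stm`.
-/

set_option autoImplicit false
set_option linter.unusedSectionVars false

open CategoryTheory Limits MonoidalCategory
open Pool.Agent.Y112.SR Pool.Agent.Y112.KD Pool.Agent.Y112.SC Pool.Agent.R905
open Pool.Agent.K3h63.IQ

namespace Pool.Agent.K3h11.IQ

universe v u w

section

variable {C : Type u} [Category.{v} C] [Preadditive C] [Linear ℚ C]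
  [MonoidalCategory C] [MonoidalPreadditive C] [MonoidalLinear ℚ C] [SymmetricCategory C]
  [RightRigidCategory C]

/-- the partial trace of the projector -/
theorem ptr_proj (hU : UnitQ C) {G : Type} [Group G] [Fintype G] {M N P : C} {ρ : G →* End M}
    {τ : G →* End N} {j : P ⟶ M ⊗ N} {q : M ⊗ N ⟶ P} (h : IsInv ρ τ j q) :
    ptr (q ≫ j) = (Fintype.card G : ℚ)⁻¹ •
      ((∑ g, trq hU N (τ g) • ρ g : End M) : M ⟶ M) := by
  rw [h.proj, ptr_smul]
  congr 1
  have e : ptr (∑ g : G, (((ρ g : End M) : M ⟶ M) ⊗ₘ ((τ g : End N) : N ⟶ N))) =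
      ∑ g : G, ptr (((ρ g : End M) : M ⟶ M) ⊗ₘ ((τ g : End N) : N ⟶ N)) :=
    map_sum (ptrL M N) _ _
  rw [e]
  refine Finset.sum_congr rfl fun g _ => ?_
  exact ptr_tensor _ _ _ (trq_spec hU (τ g))

end

theorem t_CPL : S_CPL.{v, u, w} := by
  intro C _ _ _ _ _ _ _ _ K _ R hU G _ _ M N P ρ τ j q d hinv hd hN hu hP
  have := R_charZero R
  rw [cplus_iff] at hP ⊢
  obtain ⟨g, hg⟩ := hP
  obtain ⟨κu, hκu⟩ := hu
  have h1 := ptr_proj hU hinv
  have hinvκ : ((κu : End M) : M ⟶ M) ≫ ((κu⁻¹ : (End M)ˣ) : End M) = 𝟙 M :=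
    κu.inv_mul
  have h2 : R.H.map (q ≫ g ≫ j) = (d : K) • (bx R (R.par M) (𝟙 _) ≫ R.H.map (q ≫ j)) := by
    rw [Functor.map_comp, Functor.map_comp, hg, ← Category.assoc, R.par_natural, Category.assoc,
      ← Functor.map_comp, ← bx_par, hN, bx_smul_right, Linear.smul_comp]
  have h3 : R.H.map (ptr (q ≫ g ≫ j)) = (d : K) • (R.par M ≫ R.H.map (ptr (q ≫ j))) := by
    rw [← PT_map, h2, PT_smul, PT_left, PT_map]
  have hcG : (Fintype.card G : ℚ) ≠ 0 := by
    exact_mod_cast Fintype.card_ne_zero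
  have hdd : d * d = 1 := by
    rcases hd with rfl | rfl <;> norm_num
  have hddK : (d : K) * (d : K) = 1 := by exact_mod_cast hdd
  refine ⟨(d * Fintype.card G) • (ptr (q ≫ g ≫ j) ≫ ((κu⁻¹ : (End M)ˣ) : End M)), ?_⟩
  rw [R_smul, Functor.map_comp, h3, h1, ← hκu, R_smul, Linear.smul_comp, Linear.comp_smul,
    Linear.smul_comp, Category.assoc, ← Functor.map_comp, hinvκ, CategoryTheory.Functor.map_id,
    Category.comp_id, smul_smul, smul_smul]
  have e : ((d * (Fintype.card G : ℚ) : ℚ) : K) * ((d : K) * (((Fintype.card G : ℚ)⁻¹ : ℚ) : K))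
      = 1 := by
    rw [← Rat.cast_mul, ← Rat.cast_mul]
    have : d * (Fintype.card G : ℚ) * (d * (Fintype.card G : ℚ)⁻¹) = 1 := by
      field_simp
      rw [pow_two, hdd]
    rw [this, Rat.cast_one]
  first
    | rw [e, one_smul]
    | (rw [mul_assoc, e, one_smul])

end Pool.Agent.K3h11.IQ
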